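import Pool.Agent.NDR.StmtsC

/-!
# Squad NDR, block C, row CID
-/

set_option autoImplicit false

namespace Pool.Agent.NDR.H7

open Finset

/-- **CID**. -/
theorem cid (h : CdvStmt) : CidStmt := by
  intro σ _ K _ _ δ G
  rw [Ideal.radical_eq_jacobson, Ideal.jacobson, Ideal.mem_sInf]
  rintro m ⟨hJ, hm⟩
  have hmax : m.IsMaximal := hm
  let _ : Field (MvPolynomial σ K ⧸ m) := Ideal.Quotient.field m
  have hfin : Module.Finite K (MvPolynomial σ K ⧸ m) :=
    finite_of_finite_type_of_isJacobsonRing K (MvPolynomial σ K ⧸ m)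
  have halg : Algebra.IsAlgebraic K (MvPolynomial σ K ⧸ m) := Algebra.IsAlgebraic.of_finite _ _
  let ξ : σ → MvPolynomial σ K ⧸ m := fun i => Ideal.Quotient.mk m (MvPolynomial.X i)
  have hev : ∀ H : MvPolynomial σ K, MvPolynomial.aeval ξ H = Ideal.Quotient.mk m H := by
    intro H
    have h1 : MvPolynomial.aeval ξ = Ideal.Quotient.mkₐ K m := by
      apply MvPolynomial.algHom_ext
      intro i
      rw [MvPolynomial.aeval_X]
      rfl
    rw [h1]
    rfl
  have hG : MvPolynomial.aeval ξ G = 0 := by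
    rw [hev, Ideal.Quotient.eq_zero_iff_mem]
    exact hJ (Ideal.subset_span (Or.inl rfl))
  have hd : ∀ l, MvPolynomial.aeval ξ (MvPolynomial.pderiv l G) = 0 := by
    intro l
    rw [hev, Ideal.Quotient.eq_zero_iff_mem]
    exact hJ (Ideal.subset_span (Or.inr ⟨l, rfl⟩))
  have h2 := h σ K δ G (MvPolynomial σ K ⧸ m) ξ hG hd
  rw [hev, Ideal.Quotient.eq_zero_iff_mem] at h2
  exact h2

end Pool.Agent.NDR.H7
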