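import Pool.Agent.NDR.StmtsG

/-!
# Squad NDR, block G, row KHO
-/

set_option autoImplicit false

namespace Pool.Agent.NDR.H7

open Finset

theorem kd_apply {T R : Type} [CommRing R] [inst : DecidableEq T] (a : T → R) (S : Finset T)
    (x : Finset T → R) (U : Finset T) :
    kd a S x U = ∑ j ∈ S \ U, sg j U • (a j * x (insert j U)) := by
  have h : inst = fun a b => Classical.propDecidable (a = b) := Subsingleton.elim _ _
  subst h
  rfl

theorem sg_empty {T : Type} (j : T) : sg j (∅ : Finset T) = 1 := by
  unfold sg
  simp

/-- **KHO**. -/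
theorem kho (hk : KsgStmt) : KhoStmt := by
  intro T R _ _ a S N hE x hx h0
  obtain ⟨hs, -, -, -⟩ := hk T R
  let X : Finset T → R := fun U => ∑ j ∈ S, if U = {j} then x j else 0
  have hX1 : ∀ j ∈ S, X {j} = x j := by
    intro j hj
    show ∑ k ∈ S, (if ({j} : Finset T) = {k} then x k else 0) = x j
    rw [Finset.sum_eq_single j]
    · rw [if_pos rfl]
    · intro k _ hkj
      rw [if_neg]
      intro h
      exact hkj (Finset.singleton_injective h).symm
    · intro h
      exact absurd hj h
  have hX0 : ∀ U, X U ≠ 0 → ∃ j ∈ S, U = {j} := by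
    intro U hU
    obtain ⟨j, hj, h⟩ := Finset.exists_ne_zero_of_sum_ne_zero hU
    refine ⟨j, hj, ?_⟩
    by_contra hne
    exact h (if_neg hne)
  have hC : Chn S N 1 X := by
    intro U
    refine ⟨?_, ?_⟩
    · refine N.sum_mem fun j hj => ?_
      by_cases h : U = {j}
      · rw [if_pos h]
        exact hx j hj
      · rw [if_neg h]
        exact N.zero_mem
    · intro hU
      obtain ⟨j, hj, rfl⟩ := hX0 U hU
      exact ⟨Finset.singleton_subset_iff.2 hj, Finset.card_singleton j⟩
  have hd : ∀ U, kd a S X U ∈ (⊥ : AddSubgroup R) := by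
    intro U
    rw [AddSubgroup.mem_bot, kd_apply]
    by_cases hU : U = ∅
    · subst hU
      rw [Finset.sdiff_empty, ← h0]
      refine Finset.sum_congr rfl fun j hj => ?_
      rw [sg_empty, one_smul]
      have : X (insert j ∅) = x j := by
        rw [← hX1 j hj]
        rfl
      rw [this]
    · refine Finset.sum_eq_zero fun j hj => ?_
      have hj' := (Finset.mem_sdiff.1 hj).2
      have hz : X (insert j U) = 0 := by
        by_contra hne
        obtain ⟨k, -, hk⟩ := hX0 _ hne
        have h1 : (insert j U).card = U.card + 1 := Finset.card_insert_of_notMem hj'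
        rw [hk, Finset.card_singleton] at h1
        have h2 : 0 < U.card := Finset.card_pos.2 (Finset.nonempty_of_ne_empty hU)
        omega
      rw [hz, mul_zero, smul_zero]
  obtain ⟨Y, hY, hXY⟩ := hE X hC hd
  have hsg : ∀ j k : T, j ≠ k → sg j ({k} : Finset T) = - sg k ({j} : Finset T) := by
    intro j k hjk
    have h1 := hs j k ∅ hjk (Finset.notMem_empty j) (Finset.notMem_empty k)
    rw [sg_empty, sg_empty, mul_one, mul_one] at h1
    exact h1
  refine ⟨fun j k => if j = k then 0 else sg k ({j} : Finset T) • Y (insert k {j}), ?_, ?_, ?_⟩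
  · intro j k
    show (if j = k then (0 : R) else sg k ({j} : Finset T) • Y (insert k {j}))
      = - (if k = j then (0 : R) else sg j ({k} : Finset T) • Y (insert j {k}))
    by_cases h : j = k
    · rw [if_pos h, if_pos h.symm, neg_zero]
    · rw [if_neg h, if_neg (Ne.symm h), hsg j k h, neg_smul, neg_neg]
      have : (insert k {j} : Finset T) = insert j {k} := Finset.pair_comm k j
      rw [this]
  · intro j k
    show (if j = k then (0 : R) else sg k ({j} : Finset T) • Y (insert k {j})) ∈ N
    by_cases h : j = k
    · rw [if_pos h]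
      exact N.zero_mem
    · rw [if_neg h]
      exact N.zsmul_mem (hY _).1 _
  · intro j hj
    have h1 := hXY {j}
    rw [AddSubgroup.mem_bot, sub_eq_zero, hX1 j hj, kd_apply] at h1
    rw [h1]
    have hsub : S \ {j} ⊆ S := Finset.sdiff_subset
    rw [← Finset.sum_subset hsub]
    · refine Finset.sum_congr rfl fun k hk => ?_
      have hkj : j ≠ k := fun h => (Finset.mem_sdiff.1 hk).2 (Finset.mem_singleton.2 h.symm)
      show sg k ({j} : Finset T) • (a k * Y (insert k {j}))
        = a k * (if j = k then (0 : R) else sg k ({j} : Finset T) • Y (insert k {j}))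
      rw [if_neg hkj, mul_smul_comm]
    · intro k hk hk'
      have hkj : j = k := by
        by_contra h
        exact hk' (Finset.mem_sdiff.2 ⟨hk, fun h' => h (Finset.mem_singleton.1 h').symm⟩)
      show a k * (if j = k then (0 : R) else sg k ({j} : Finset T) • Y (insert k {j})) = 0
      rw [if_pos hkj, mul_zero]

end Pool.Agent.NDR.H7
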