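import Pool.Agent.NDR.StmtsG

/-!
# Squad NDR, block G, row PAI
-/

set_option autoImplicit false

namespace Pool.Agent.NDR.H7

open Finset

section

variable {T R : Type} [CommRing R]

theorem kd_add_a (a b : T → R) (S : Finset T) (x : Finset T → R) (U : Finset T) :
    kd (fun j => a j + b j) S x U = kd a S x U + kd b S x U := by
  unfold kd
  rw [← Finset.sum_add_distrib]
  refine Finset.sum_congr rfl fun j _ => ?_
  rw [add_mul, smul_add]

theorem kd_add_x (a : T → R) (S : Finset T) (x y : Finset T → R) (U : Finset T) :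
    kd a S (fun U => x U + y U) U = kd a S x U + kd a S y U := by
  unfold kd
  rw [← Finset.sum_add_distrib]
  refine Finset.sum_congr rfl fun j _ => ?_
  rw [mul_add, smul_add]

theorem kd_mem (a : T → R) (S : Finset T) (x : Finset T → R) (N N' : AddSubgroup R)
    (ha : ∀ j ∈ S, ∀ r ∈ N, a j * r ∈ N') (hx : ∀ U, x U ∈ N) (U : Finset T) :
    kd a S x U ∈ N' := by
  classical
  unfold kd
  refine N'.sum_mem fun j hj => N'.zsmul_mem (ha j ?_ _ (hx _)) _
  exact (Finset.mem_sdiff.1 hj).1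

end

section

variable {ι K : Type} [Field K]

theorem mul_mem_MS {Q Q' : Set (ι → ℤ)} {b r : Lr K ι}
    (hb : ∀ m, b.coeff m ≠ 0 → ∀ e ∈ Q, e + m ∈ Q') (hr : r ∈ MS K Q) : b * r ∈ MS K Q' := by
  classical
  intro m hm
  have h1 : m ∈ (b * r).coeff.support := Finsupp.mem_support_iff.2 hm
  have h2 := AddMonoidAlgebra.support_coeff_mul_subset b r h1
  obtain ⟨m1, hm1, m2, hm2, rfl⟩ := Finset.mem_add.1 h2
  rw [add_comm]
  exact hb m1 (Finsupp.mem_support_iff.1 hm1) m2 (hr m2 (Finsupp.mem_support_iff.1 hm2))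

theorem cut_coeff_of_mem {Q : Set (ι → ℤ)} {h : Lr K ι} {m : ι → ℤ} (hm : m ∈ Q) :
    (cut Q h).coeff m = h.coeff m := by
  classical
  unfold cut
  rw [AddMonoidAlgebra.coeff_ofCoeff]
  exact Finsupp.filter_apply_pos _ _ hm

theorem cut_coeff_of_notMem {Q : Set (ι → ℤ)} {h : Lr K ι} {m : ι → ℤ} (hm : m ∉ Q) :
    (cut Q h).coeff m = 0 := by
  classical
  unfold cut
  rw [AddMonoidAlgebra.coeff_ofCoeff]
  exact Finsupp.filter_apply_neg _ _ hm

theorem cut_mem {Q : Set (ι → ℤ)} {h : Lr K ι} : cut Q h ∈ MS K Q := by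
  intro m hm
  by_contra hn
  exact hm (cut_coeff_of_notMem hn)

theorem MS_mono {Q Q' : Set (ι → ℤ)} (h : Q ⊆ Q') : MS K Q ≤ MS K Q' := fun _ hx m hm => h (hx m hm)

theorem MS_disj {Q Q' : Set (ι → ℤ)} (h : Disjoint Q Q') {x : Lr K ι} (h1 : x ∈ MS K Q)
    (h2 : x ∈ MS K Q') : x = 0 := by
  apply AddMonoidAlgebra.ext
  ext m
  by_contra hm
  exact Set.disjoint_left.1 h (h1 m hm) (h2 m hm)

end

/-- **PAI**. -/
theorem pai (_hk : KsgStmt) : PaiStmt := by
  intro T ι K _ a a' S Q Q' i hQ ha' had ha hE x hx hdx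
  -- the splitting
  obtain ⟨x', hx'⟩ : ∃ x' : Finset T → Lr K ι, ∀ U, x' U = cut Q (x U) := ⟨_, fun _ => rfl⟩
  obtain ⟨x'', hx''⟩ : ∃ x'' : Finset T → Lr K ι, ∀ U, x'' U = x U - x' U := ⟨_, fun _ => rfl⟩
  have hxs : x = fun U => x' U + x'' U := by
    funext U
    rw [hx'' U, add_sub_cancel]
  have hx'Q : ∀ U, x' U ∈ MS K Q := fun U => by
    rw [hx']
    exact cut_mem
  have hx''Q : ∀ U, x'' U ∈ MS K Q' := by
    intro U m hm
    have h1 : (x U).coeff m - (x' U).coeff m ≠ 0 := by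
      rw [hx'' U] at hm
      simpa using hm
    have hmQ : m ∉ Q := by
      intro hmQ
      apply h1
      rw [hx' U, cut_coeff_of_mem hmQ, sub_self]
    rw [hx' U, cut_coeff_of_notMem hmQ, sub_zero] at h1
    exact ((hx U).1 m h1).resolve_left hmQ
  have hC : Chn S (MS K Q) i x' := by
    intro U
    refine ⟨hx'Q U, fun hU => (hx U).2 ?_⟩
    intro h0
    apply hU
    rw [hx' U, h0]
    apply AddMonoidAlgebra.ext
    ext m
    by_cases hm : m ∈ Q
    · rw [cut_coeff_of_mem hm]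
    · rw [cut_coeff_of_notMem hm]
      rfl
  have haa : a = fun j => a' j + (a j - a' j) := by
    funext j
    rw [add_sub_cancel]
  have hd' : ∀ U, kd a' S x' U ∈ (⊥ : AddSubgroup (Lr K ι)) := by
    intro U
    rw [AddSubgroup.mem_bot]
    apply MS_disj hQ
    · exact kd_mem a' S x' _ _ (fun j hj r hr => mul_mem_MS (ha' j hj) hr) hx'Q U
    · have h1 : kd a S x U = kd a S x' U + kd a S x'' U := by
        conv_lhs => rw [hxs]
        exact kd_add_x a S x' x'' U
      have h2 : kd a S x' U = kd a' S x' U + kd (fun j => a j - a' j) S x' U := by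
        conv_lhs => rw [haa]
        exact kd_add_a a' (fun j => a j - a' j) S x' U
      have h3 : kd a' S x' U
          = kd a S x U - kd (fun j => a j - a' j) S x' U - kd a S x'' U := by
        rw [h1, h2]
        abel
      rw [h3]
      refine (MS K Q').sub_mem ((MS K Q').sub_mem (hdx U) ?_) ?_
      · exact kd_mem _ S x' _ _ (fun j hj r hr => mul_mem_MS (had j hj) hr) hx'Q U
      · exact kd_mem _ S x'' _ _ (fun j hj r hr => mul_mem_MS (ha j hj) hr) hx''Q U
  obtain ⟨y, hy, hxy⟩ := hE x' hC hd'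
  have hyQ : ∀ U, y U ∈ MS K Q := fun U => (hy U).1
  refine ⟨y, fun U => ⟨MS_mono Set.subset_union_left (hy U).1, (hy U).2⟩, ?_⟩
  intro U
  have h1 := hxy U
  rw [AddSubgroup.mem_bot, sub_eq_zero] at h1
  have h2 : kd a S y U = kd a' S y U + kd (fun j => a j - a' j) S y U := by
    conv_lhs => rw [haa]
    exact kd_add_a a' (fun j => a j - a' j) S y U
  have h3 : x U - kd a S y U = x'' U - kd (fun j => a j - a' j) S y U := by
    rw [h2, ← h1, hx'' U]
    abel
  rw [h3]
  exact (MS K Q').sub_mem (hx''Q U)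
    (kd_mem _ S y _ _ (fun j hj r hr => mul_mem_MS (had j hj) hr) hyQ U)

end Pool.Agent.NDR.H7
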